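import Mathlib

set_option linter.unusedSectionVars false

namespace Pool.Agent.H.MP_d00095_nt

structure QD (K H : Type*) [Field K] [Ring H] [Algebra K H] where
  c : H →ₗ[K] H
  d : H →ₗ[K] H
  t : H →ₗ[K] K
  n : H → K
  c_mul : ∀ x y, c (x * y) = c y * c x
  d_mul : ∀ x y, d (x * y) = d y * d x
  d_d : ∀ x, d (d x) = x
  d_one : d 1 = 1
  c_eq : ∀ x, c x = t x • 1 - x
  mul_c : ∀ x, x * c x = n x • 1
  t_one : t 1 = 2
  t_d : ∀ x, t (d x) = t x
  two : (2 : K) ≠ 0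
  inj : ∀ a b : K, a • (1 : H) = b • 1 → a = b

variable {R K H : Type*} [CommRing R] [IsDedekindDomain R] [Field K] [Algebra R K]
  [IsFractionRing R K] [Ring H] [Algebra K H] [Algebra R H] [IsScalarTower R K H] (D : QD K H)

namespace QD

theorem c_mul_self (x : H) : D.c x * x = D.n x • 1 := by
  rw [← D.mul_c, D.c_eq, sub_mul, mul_sub]
  simp

theorem t_c (x : H) : D.t (D.c x) = D.t x := by
  rw [D.c_eq, map_sub, map_smul, D.t_one, smul_eq_mul]
  ring

theorem c_c (x : H) : D.c (D.c x) = x := by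
  rw [D.c_eq, D.t_c, D.c_eq, sub_sub_cancel]

theorem c_one : D.c 1 = 1 := by
  rw [D.c_eq, D.t_one, two_smul, add_sub_cancel_right]

theorem c_d (x : H) : D.c (D.d x) = D.d (D.c x) := by
  rw [D.c_eq, D.c_eq, D.t_d, map_sub, map_smul, D.d_one]

theorem n_d (x : H) : D.n (D.d x) = D.n x := by
  apply D.inj
  rw [← D.mul_c, D.c_d, ← D.d_mul, D.c_mul_self, map_smul, D.d_one]

theorem n_c (x : H) : D.n (D.c x) = D.n x := by
  apply D.inj
  rw [← D.mul_c, D.c_c, D.c_mul_self]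

theorem n_mul (x y : H) : D.n (x * y) = D.n x * D.n y := by
  apply D.inj
  rw [← D.mul_c, D.c_mul, mul_assoc, ← mul_assoc y, D.mul_c, smul_mul_assoc, one_mul,
    mul_smul_comm, D.mul_c, smul_smul, mul_comm]

theorem n_one : D.n 1 = 1 := by
  apply D.inj
  rw [← D.mul_c, D.c_one, one_mul, one_smul]

theorem n_smul (k : K) (x : H) : D.n (k • x) = k * k * D.n x := by
  apply D.inj
  rw [← D.mul_c, map_smul, smul_mul_smul_comm, D.mul_c, smul_smul]

theorem mul_eq (x y : H) : x * y = D.t (x * y) • 1 - D.c y * D.c x := by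
  rw [← D.c_mul, D.c_eq, sub_sub_cancel]

theorem t_comm (x y : H) : D.t (x * y) = D.t (y * x) := by
  apply D.inj
  have h1 := D.mul_eq x y
  have h2 := D.mul_eq y x
  rw [eq_sub_iff_add_eq] at h1 h2
  rw [← h1, ← h2, D.c_eq, D.c_eq]
  simp only [sub_mul, mul_sub, smul_mul_assoc, mul_smul_comm, one_mul, mul_one]
  module

theorem sq (x : H) : x * x = D.t x • x - D.n x • 1 := by
  rw [← D.mul_c, D.c_eq, mul_sub]
  simp

theorem t_eq (x : H) : D.t x = D.n (x + 1) - D.n x - 1 := by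
  apply D.inj
  rw [sub_smul, sub_smul, ← D.mul_c, map_add, D.c_one, add_mul, mul_add, D.mul_c, D.c_eq]
  simp only [one_mul, mul_one, mul_add]
  module

def Ord (O : Subalgebra R H) : Prop :=
  (Subalgebra.toSubmodule O).FG ∧ Submodule.span K (O : Set H) = ⊤ ∧ ∀ x ∈ O, D.d x ∈ O

theorem n_mem {O : Subalgebra R H} (h : (Subalgebra.toSubmodule O).FG) {z : H} (hz : z ∈ O) :
    D.n z ∈ (algebraMap R K).range := by
  let B : H →ₗ[R] H →ₗ[R] K := LinearMap.mk₂ R (fun x y => D.t (x * D.c y))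
    (fun x x' y => by simp [add_mul])
    (fun r x y => by rw [smul_mul_assoc, LinearMap.map_smul_of_tower])
    (fun x y y' => by simp [mul_add])
    (fun r x y => by rw [LinearMap.map_smul_of_tower, mul_smul_comm, LinearMap.map_smul_of_tower])
  refine IsIntegrallyClosed.algebraMap_eq_of_integral (isIntegral_of_smul_mem_submodule
    (Submodule.map₂ B (Subalgebra.toSubmodule O) (Subalgebra.toSubmodule O)) (fun c => ?_)
    (h.map₂ B h) (D.n z) ?_)
  · have := Submodule.apply_mem_map₂ B (p := Subalgebra.toSubmodule O)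
      (q := Subalgebra.toSubmodule O) O.one_mem O.one_mem
    rw [c] at this
    refine D.two ?_
    rw [← D.t_one, ← mul_one (1 : H)]
    nth_rewrite 2 [← D.c_one]
    exact this
  · intro m hm
    rw [Submodule.map₂_eq_span_image2] at hm ⊢
    induction hm using Submodule.span_induction with
    | mem _ hx =>
      obtain ⟨x, hx, y, hy, rfl⟩ := hx
      refine Submodule.subset_span ⟨x * z, O.mul_mem hx hz, y * z, O.mul_mem hy hz, ?_⟩
      change D.t (x * z * D.c (y * z)) = D.n z • D.t (x * D.c y)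
      rw [D.c_mul, mul_assoc, ← mul_assoc z, D.mul_c, smul_mul_assoc, one_mul, mul_smul_comm,
        map_smul]
    | zero => simp
    | add x y _ _ hx hy => rw [smul_add]; exact add_mem hx hy
    | smul a x _ hx => rw [smul_comm]; exact Submodule.smul_mem _ a hx

theorem t_mem {O : Subalgebra R H} (h : (Subalgebra.toSubmodule O).FG) {z : H} (hz : z ∈ O) :
    D.t z ∈ (algebraMap R K).range := by
  rw [D.t_eq]
  exact sub_mem (sub_mem (D.n_mem h (add_mem hz O.one_mem)) (D.n_mem h hz)) (one_mem _)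

end QD

theorem sm_mem {O : Subalgebra R H} {k : K} (hk : k ∈ (algebraMap R K).range) {z : H}
    (hz : z ∈ O) : k • z ∈ O := by
  obtain ⟨r, rfl⟩ := hk
  rw [algebraMap_smul]
  exact O.smul_mem hz r

theorem QD.c_mem {O : Subalgebra R H} (h : (Subalgebra.toSubmodule O).FG) {z : H} (hz : z ∈ O) :
    D.c z ∈ O := by
  rw [D.c_eq]
  exact sub_mem (sm_mem (D.t_mem h hz) O.one_mem) hz

theorem den_lat (M : Subalgebra R H) (h : Submodule.span K (M : Set H) = ⊤)
    (x : H) : ∃ c : K, c ≠ 0 ∧ c ∈ (algebraMap R K).range ∧ c • x ∈ M := by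
  have hx : x ∈ Submodule.span K (M : Set H) := h ▸ Submodule.mem_top
  induction hx using Submodule.span_induction with
  | mem x hx => exact ⟨1, one_ne_zero, one_mem _, by simpa using hx⟩
  | zero => exact ⟨1, one_ne_zero, one_mem _, by simp⟩
  | add x y _ _ hx hy =>
    obtain ⟨c, c0, c1, hc⟩ := hx
    obtain ⟨d, d0, d1, hd⟩ := hy
    refine ⟨c * d, mul_ne_zero c0 d0, mul_mem c1 d1, ?_⟩
    rw [smul_add, mul_smul c d y, mul_comm, mul_smul]
    exact add_mem (sm_mem d1 hc) (sm_mem c1 hd)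
  | smul a x _ hx =>
    obtain ⟨c, c0, c1, hc⟩ := hx
    obtain ⟨⟨r, s, hs⟩, hrs⟩ := IsLocalization.surj (nonZeroDivisors R) a
    refine ⟨algebraMap R K s * c, mul_ne_zero (IsFractionRing.to_map_ne_zero_of_mem_nonZeroDivisors
      hs) c0, mul_mem ⟨s, rfl⟩ c1, ?_⟩
    have : (algebraMap R K s * c) • a • x = algebraMap R K r • c • x := by
      rw [smul_smul, smul_smul, ← hrs]
      congr 1
      ring
    rw [this]
    exact sm_mem ⟨r, rfl⟩ hc

theorem fg_den {M : Submodule R H} (N : Subalgebra R H) (hM : M.FG)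
    (h : Submodule.span K (N : Set H) = ⊤) :
    ∃ c : K, c ≠ 0 ∧ c ∈ (algebraMap R K).range ∧ ∀ x ∈ M, c • x ∈ N := by
  induction M, hM using Submodule.fg_induction with
  | singleton x =>
    obtain ⟨c, c0, c1, hc⟩ := den_lat N h x
    refine ⟨c, c0, c1, fun y hy => ?_⟩
    obtain ⟨r, rfl⟩ := Submodule.mem_span_singleton.1 hy
    rw [smul_comm]
    exact N.smul_mem hc r
  | sup M₁ M₂ _ _ h₁ h₂ =>
    obtain ⟨c, c0, c1, hc⟩ := h₁
    obtain ⟨d, d0, d1, hd⟩ := h₂
    refine ⟨c * d, mul_ne_zero c0 d0, mul_mem c1 d1, fun z hz => ?_⟩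
    obtain ⟨x, hx, y, hy, rfl⟩ := Submodule.mem_sup.1 hz
    rw [smul_add, mul_smul c d y, mul_comm, mul_smul]
    exact add_mem (sm_mem d1 (hc x hx)) (sm_mem c1 (hd y hy))

variable (W : Type*) [LinearOrder W] [WellFoundedLT W]

def QD.Euc (O : Subalgebra R H) : Prop :=
  ∃ f : H → W, ∀ a ∈ O, ∀ b ∈ O, b ≠ 0 → D.d (a * D.d b) = a * D.d b →
    ∃ q ∈ O, D.d q = q ∧ f (a - b * q) < f b

variable {D W}

theorem transfer {O P : Subalgebra R H} (hO : D.Ord O) (hP : D.Ord P) (hE : D.Euc W O)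
    (h : ∀ q ∈ O, D.d q = q → q ∈ P) : D.Euc W P := by
  obtain ⟨N, N0, -, hN⟩ := fg_den O hP.1 hO.2.1
  obtain ⟨f, hf⟩ := hE
  refine ⟨fun b => f (N • b), fun a ha b hb b0 hab => ?_⟩
  obtain ⟨q, hq, h1, h2⟩ := hf _ (hN a ha) _ (hN b hb) (smul_ne_zero N0 b0) (by
    rw [map_smul, smul_mul_smul_comm, map_smul, hab])
  exact ⟨q, h q hq h1, h1, by simp only; rwa [smul_sub, ← smul_mul_assoc]⟩

theorem gcd {O : Subalgebra R H} (hE : D.Euc W O) (b : H) : ∀ a ∈ O, b ∈ O →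
    D.d (a * D.d b) = a * D.d b → ∃ g : H, (∃ y ∈ O, ∃ z ∈ O, g = a * y + b * z) ∧
      (∃ y ∈ O, a = g * y) ∧ ∃ z ∈ O, b = g * z := by
  obtain ⟨f, hf⟩ := hE
  induction b using (InvImage.wf f (wellFounded_lt (α := W))).induction with
  | _ b ih =>
    intro a ha hb hab
    by_cases b0 : b = 0
    · exact ⟨a, ⟨1, one_mem _, 0, zero_mem _, by simp⟩, ⟨1, one_mem _, by simp⟩,
        0, zero_mem _, by simp [b0]⟩
    obtain ⟨q, hq, h1, h2⟩ := hf a ha b hb b0 hab
    obtain ⟨g, ⟨y, hy, z, hz, e⟩, ⟨y1, hy1, e1⟩, z1, hz1, e2⟩ := ih _ h2 b hb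
      (sub_mem ha (mul_mem hb hq)) (by
        rw [D.d_mul, D.d_d] at hab
        rw [D.d_mul, D.d_d, map_sub, D.d_mul, h1, sub_mul, mul_sub, hab, mul_assoc])
    refine ⟨g, ⟨z, hz, y - q * z, sub_mem hy (mul_mem hq hz), by rw [e]; noncomm_ring⟩,
      ⟨z1 + y1 * q, add_mem hz1 (mul_mem hy1 hq), ?_⟩, y1, hy1, e1⟩
    rw [mul_add, ← mul_assoc, ← e1, ← e2, sub_add_cancel]

end Pool.Agent.H.MP_d00095_nt
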