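import Pool.Agent.H.MP_d00095_nt.A

set_option linter.unusedSectionVars false

namespace Pool.Agent.H.MP_d00095_nt

variable {R K H : Type*} [CommRing R] [IsDedekindDomain R] [Field K] [Algebra R K]
  [IsFractionRing R K] [Ring H] [Algebra K H] [Algebra R H] [IsScalarTower R K H] {D : QD K H}
  {W : Type*} [LinearOrder W] [WellFoundedLT W]

def cj (O : Subalgebra R H) (g gi : H) (h1 : g * gi = 1) (h2 : gi * g = 1) : Subalgebra R H where
  carrier := {h | gi * h * g ∈ O}
  mul_mem' := fun {a b} ha hb => by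
    have := O.mul_mem ha hb
    have e : gi * a * g * (gi * b * g) = gi * a * (g * gi) * b * g := by noncomm_ring
    rw [e, h1, mul_one, mul_assoc gi] at this
    exact this
  add_mem' := fun {a b} ha hb => by
    have := O.add_mem ha hb
    rw [← add_mul, ← mul_add] at this
    exact this
  algebraMap_mem' := fun r => by
    change gi * _ * g ∈ O
    rw [← Algebra.commutes, mul_assoc, h2, mul_one]
    exact O.algebraMap_mem r

theorem conj {O : Subalgebra R H} (hO : D.Ord O) (hE : D.Euc W O) {g gi : H} (h1 : g * gi = 1)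
    (h2 : gi * g = 1) (hs : gi * D.c (D.d g) ∈ O) :
    D.Ord (cj O g gi h1 h2) ∧ D.Euc W (cj O g gi h1 h2) := by
  have mem : ∀ h, h ∈ cj O g gi h1 h2 ↔ gi * h * g ∈ O := fun h => Iff.rfl
  have st : ∀ x y, D.c (D.d (x * y)) = D.c (D.d x) * D.c (D.d y) := fun x y => by
    rw [D.d_mul, D.c_mul]
  have sO : ∀ x ∈ O, D.c (D.d x) ∈ O := fun x hx => D.c_mem hO.1 (hO.2.2 x hx)
  have nn : D.n gi * D.n g = 1 := by rw [← D.n_mul, h2, D.n_one]
  have g0 : D.n g ≠ 0 := right_ne_zero_of_mul_eq_one nn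
  set e := gi * D.c (D.d g) with he
  have ne : D.n e = 1 := by rw [he, D.n_mul, D.n_c, D.n_d, nn]
  have ge : D.c (D.d g) = g * e := by rw [he, ← mul_assoc, h1, one_mul]
  have fg : (Subalgebra.toSubmodule (cj O g gi h1 h2)).FG := by
    have : Subalgebra.toSubmodule (cj O g gi h1 h2) = (Subalgebra.toSubmodule O).map
        ((LinearMap.mulLeft R g).comp (LinearMap.mulRight R gi)) := by
      ext h
      constructor
      · intro hh
        refine ⟨_, hh, ?_⟩
        change g * (gi * h * g * gi) = h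
        rw [mul_assoc _ g, h1, mul_one, ← mul_assoc, h1, one_mul]
      · rintro ⟨x, hx, rfl⟩
        change gi * (g * (x * gi)) * g ∈ O
        rwa [← mul_assoc, h2, one_mul, mul_assoc, h2, mul_one]
    rw [this]
    exact hO.1.map _
  refine ⟨⟨fg, ?_, fun h hh => ?_⟩, ?_⟩
  · refine eq_top_iff.2 fun x _ => ?_
    obtain ⟨c, c0, -, hc⟩ := den_lat O hO.2.1 (gi * x * g)
    have : x = c⁻¹ • c • x := by rw [smul_smul, inv_mul_cancel₀ c0, one_smul]
    rw [this]
    refine Submodule.smul_mem _ _ (Submodule.subset_span ((mem _).2 ?_))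
    rwa [mul_smul_comm, smul_mul_assoc]
  · rw [← D.c_c (D.d h)]
    refine D.c_mem fg ((mem _).2 ?_)
    have := mul_mem (mul_mem hs (sO _ hh)) (D.c_mem hO.1 hs)
    have e1 : e * D.c (D.d gi) = gi := by
      rw [he, mul_assoc, ← st, h1, D.d_one, D.c_one, mul_one]
    rwa [st, st, ge, ← mul_assoc e, ← mul_assoc e, e1, mul_assoc _ (g * e), mul_assoc g e, D.mul_c,
      ne, one_smul, mul_one] at this
  · obtain ⟨N, N0, -, hN⟩ := den_lat O hO.2.1 g
    obtain ⟨f, hf⟩ := hE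
    have ex : ∀ b : H, ∃ u, (u ∈ O ∧ D.n u = 1) ∧ ∀ v, v ∈ O ∧ D.n v = 1 →
        f (N • (b * g * u)) ≤ f (N • (b * g * v)) := fun b => by
      obtain ⟨u, hu, h⟩ := (InvImage.wf (fun u => f (N • (b * g * u)))
        (wellFounded_lt (α := W))).has_min {u | u ∈ O ∧ D.n u = 1} ⟨1, one_mem _, D.n_one⟩
      exact ⟨u, hu, fun v hv => not_lt.1 (h v hv)⟩
    choose u hu hm using ex
    have mO : ∀ b ∈ cj O g gi h1 h2, ∀ v ∈ O, N • (b * g * v) ∈ O := fun b hb v hv => by
      have := mul_mem (mul_mem hN ((mem b).1 hb)) hv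
      rwa [smul_mul_assoc, smul_mul_assoc, ← mul_assoc, ← mul_assoc, h1, one_mul] at this
    refine ⟨fun b => f (N • (b * g * u b)), fun a ha b hb b0 hab => ?_⟩
    obtain ⟨uO, un⟩ := hu b
    set v := e * D.c (D.d (u b)) with hv
    have vO : v ∈ O := mul_mem hs (sO _ uO)
    have vn : D.n v = 1 := by rw [hv, D.n_mul, ne, D.n_c, D.n_d, un, one_mul]
    have gv : g * v = D.c (D.d (g * u b)) := by rw [st, ge, hv, mul_assoc g e]
    have nd : D.n (D.d (g * u b)) = D.n g := by rw [D.n_d, D.n_mul, un, mul_one]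
    obtain ⟨q, hq, q1, q2⟩ := hf _ (mO a ha v vO) _ (mO b hb _ uO) (smul_ne_zero N0 fun c => b0 (by
      have : b * g * u b * (D.c (u b) * gi) = b := by
        rw [mul_assoc, ← mul_assoc (u b), D.mul_c, un, one_smul, one_mul, mul_assoc, h1, mul_one]
      rw [← this, c, zero_mul])) (by
      have : a * g * v * D.d (b * g * u b) = D.n g • (a * D.d b) := by
        rw [mul_assoc a, gv, mul_assoc b, D.d_mul b, mul_assoc, ← mul_assoc (D.c _),
          D.c_mul_self, nd, smul_mul_assoc, one_mul, mul_smul_comm]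
      rw [map_smul, smul_mul_smul_comm, this, map_smul, map_smul, hab])
    have k : (D.n g)⁻¹ • (g * u b * q * D.d (g * u b)) * (g * v) = g * u b * q := by
      rw [gv, smul_mul_assoc, mul_assoc, D.mul_c, nd, mul_smul_comm, mul_one, smul_smul,
        inv_mul_cancel₀ g0, one_smul]
    refine ⟨(D.n g)⁻¹ • (g * u b * q * D.d (g * u b)), (mem _).2 ?_, ?_, ?_⟩
    · have := mul_mem (mul_mem uO hq) (D.c_mem hO.1 vO)
      rwa [← one_mul (u b), ← h2, mul_assoc gi, mul_assoc gi, ← k, ← mul_assoc, mul_assoc,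
        mul_assoc g v, D.mul_c, vn, one_smul, mul_one] at this
    · rw [map_smul, D.d_mul _ (D.d _), D.d_d, D.d_mul _ q, q1, ← mul_assoc]
    · refine lt_of_le_of_lt (hm _ v ⟨vO, vn⟩) ?_
      rwa [mul_assoc _ g, sub_mul, mul_assoc b, k, smul_sub, ← mul_assoc, ← mul_assoc b,
        ← mul_assoc b, ← smul_mul_assoc N _ q]

theorem step {O P : Subalgebra R H} (hO : D.Ord O) (hP : D.Ord P) (hE : D.Euc W O) {x : H}
    (hx : x ∈ P) (dx : D.d x = x) :
    ∃ Q : Subalgebra R H, D.Ord Q ∧ D.Euc W Q ∧ x ∈ Q ∧ ∀ y ∈ O, y ∈ P → y ∈ Q := by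
  obtain ⟨N, N0, N1, hN⟩ := den_lat O hO.2.1 x
  obtain ⟨g0, ⟨y, hy, z, hz, e⟩, ⟨y1, hy1, e1⟩, gi, hgi, e2⟩ := gcd hE (N • (1 : H)) _ hN
    (sm_mem N1 O.one_mem) (by
      rw [map_smul, D.d_one, smul_mul_smul_comm, mul_one, map_smul, dx])
  set g := N⁻¹ • g0 with hg
  have eg : g = x * y + z := by
    rw [hg, e, smul_mul_assoc, smul_mul_assoc, one_mul, ← smul_add, smul_smul,
      inv_mul_cancel₀ N0, one_smul]
  have h1 : g * gi = 1 := by
    rw [hg, smul_mul_assoc, ← e2, smul_smul, inv_mul_cancel₀ N0, one_smul]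
  have h2 : gi * g = 1 := by
    have nn : D.n g * D.n gi = 1 := by rw [← D.n_mul, h1, D.n_one]
    have : gi = D.n gi • D.c g := by
      rw [← mul_one (D.c g), ← h1, ← mul_assoc, D.c_mul_self, smul_mul_assoc, one_mul, smul_smul,
        mul_comm, nn, one_smul]
    rw [this, smul_mul_assoc, D.c_mul_self, smul_smul, mul_comm, nn, one_smul]
  have hx1 : gi * x ∈ O := by
    have : x = g * y1 := by
      rw [hg, smul_mul_assoc, ← e1, smul_smul, inv_mul_cancel₀ N0, one_smul]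
    rwa [this, ← mul_assoc, h2, one_mul]
  have hx2 : gi * D.c x ∈ O := by
    rw [D.c_eq, mul_sub, mul_smul_comm, mul_one]
    exact sub_mem (sm_mem (D.t_mem hP.1 hx) hgi) hx1
  obtain ⟨h3, h4⟩ := conj hO hE h1 h2 (by
    rw [eg, map_add, map_add, D.d_mul, D.c_mul, dx, mul_add, ← mul_assoc]
    exact add_mem (mul_mem hx2 (D.c_mem hO.1 (hO.2.2 y hy)))
      (mul_mem hgi (D.c_mem hO.1 (hO.2.2 z hz))))
  refine ⟨_, h3, h4, ?_, fun w w1 w2 => ?_⟩
  · change gi * x * g ∈ O
    rw [eg, mul_add, ← mul_assoc, mul_assoc gi, D.sq, mul_sub, mul_smul_comm, mul_smul_comm,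
      mul_one]
    exact add_mem (mul_mem (sub_mem (sm_mem (D.t_mem hP.1 hx) hx1)
      (sm_mem (D.n_mem hP.1 hx) hgi)) hy) (mul_mem hx1 hz)
  · change gi * w * g ∈ O
    rw [eg, mul_add, ← mul_assoc, mul_assoc gi, D.mul_eq w, mul_sub, mul_smul_comm, mul_one,
      ← mul_assoc]
    exact add_mem (mul_mem (sub_mem (sm_mem (D.t_mem hP.1 (mul_mem w2 hx)) hgi)
      (mul_mem hx2 (D.c_mem hO.1 w1))) hy) (mul_mem (mul_mem hgi w1) hz)

theorem cover {O P : Subalgebra R H} (hO : D.Ord O) (hP : D.Ord P) (hE : D.Euc W O) :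
    ∃ Q : Subalgebra R H, D.Ord Q ∧ D.Euc W Q ∧ ∀ x ∈ P, D.d x = x → x ∈ Q := by
  have : IsNoetherian R (Subalgebra.toSubmodule P) := isNoetherian_of_fg_of_noetherian _ hP.1
  obtain ⟨_, ⟨Q, h1, h2, rfl⟩, hmax⟩ := set_has_maximal_iff_noetherian.2 this
    {N : Submodule R (Subalgebra.toSubmodule P) | ∃ Q : Subalgebra R H, D.Ord Q ∧ D.Euc W Q ∧
      N = (Subalgebra.toSubmodule Q).comap (Subalgebra.toSubmodule P).subtype} ⟨_, O, hO, hE, rfl⟩
  refine ⟨Q, h1, h2, fun x hx dx => ?_⟩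
  obtain ⟨Q', h3, h4, h5, h6⟩ := step h1 hP h2 hx dx
  by_contra c
  refine hmax _ ⟨Q', h3, h4, rfl⟩ (lt_of_le_of_ne (fun y hy => h6 y hy y.2) fun e => c ?_)
  have : (⟨x, hx⟩ : Subalgebra.toSubmodule P) ∈
    (Subalgebra.toSubmodule Q').comap (Subalgebra.toSubmodule P).subtype := h5
  rw [← e] at this
  exact this

theorem adj {P : Subalgebra R H} (hP : D.Ord P) (hm : ∀ Q, D.Ord Q → P ≤ Q → Q = P) {z : H}
    (dz : D.d z = z) (nz : D.n z ∈ (algebraMap R K).range)
    (tz : ∀ y ∈ P, D.t (z * y) ∈ (algebraMap R K).range) : z ∈ P := by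
  let J : Submodule R H := Subalgebra.toSubmodule P ⊔
    (Subalgebra.toSubmodule P).map (LinearMap.mulLeft R z)
  have mk : ∀ y ∈ P, ∀ w ∈ P, y + z * w ∈ J := fun y hy w hw =>
    add_mem (Submodule.mem_sup_left hy) (Submodule.mem_sup_right ⟨w, hw, rfl⟩)
  have t1 : D.t z ∈ (algebraMap R K).range := by simpa using tz 1 P.one_mem
  have hl : ∀ y ∈ P, ∀ j ∈ J, y * j ∈ J := by
    intro y hy j hj
    obtain ⟨a, ha, _, ⟨b, hb, rfl⟩, rfl⟩ := Submodule.mem_sup.1 hj
    have := mk (y * a + D.t (z * y) • b - D.t z • (D.c y * b)) (sub_mem (add_mem (mul_mem hy ha)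
      (sm_mem (tz y hy) hb)) (sm_mem t1 (mul_mem (D.c_mem hP.1 hy) hb))) (D.c y * b)
      (mul_mem (D.c_mem hP.1 hy) hb)
    convert this using 1
    change y * (a + z * b) = _
    rw [mul_add, ← mul_assoc, D.mul_eq y z, D.t_comm, D.c_eq z]
    simp only [sub_mul, smul_mul_assoc, one_mul, mul_assoc]
    abel
  have hz : ∀ j ∈ J, z * j ∈ J := by
    intro j hj
    obtain ⟨a, ha, _, ⟨b, hb, rfl⟩, rfl⟩ := Submodule.mem_sup.1 hj
    have := mk (-(D.n z • b)) (neg_mem (sm_mem nz hb)) (a + D.t z • b)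
      (add_mem ha (sm_mem t1 hb))
    convert this using 1
    change z * (a + z * b) = _
    rw [mul_add, ← mul_assoc, D.sq]
    simp only [sub_mul, smul_mul_assoc, one_mul, mul_add, mul_smul_comm]
    abel
  have zJ : z ∈ J := by simpa using mk 0 P.zero_mem 1 P.one_mem
  let Q : Subalgebra R H := J.toSubalgebra (Submodule.mem_sup_left P.one_mem) (by
    intro i j hi hj
    obtain ⟨a, ha, _, ⟨b, hb, rfl⟩, rfl⟩ := Submodule.mem_sup.1 hi
    change (a + z * b) * j ∈ J
    rw [add_mul, mul_assoc]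
    exact add_mem (hl a ha j hj) (hz _ (hl b hb j hj)))
  have le : P ≤ Q := fun y hy => Submodule.mem_sup_left (T := _) hy
  have := hm Q ⟨hP.1.sup (hP.1.map _), eq_top_iff.2 (hP.2.1 ▸ Submodule.span_mono le), by
    intro i hi
    obtain ⟨a, ha, _, ⟨b, hb, rfl⟩, rfl⟩ := Submodule.mem_sup.1 hi
    change D.d (a + z * b) ∈ J
    rw [map_add, D.d_mul, dz]
    exact add_mem (Submodule.mem_sup_left (hP.2.2 a ha)) (hl _ (hP.2.2 b hb) z zJ)⟩ le
  exact this ▸ zJ

theorem maxi {P Q : Subalgebra R H} (hP : D.Ord P) (hm : ∀ Q, D.Ord Q → P ≤ Q → Q = P)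
    (hQ : D.Ord Q) (h : ∀ x ∈ P, D.d x = x → x ∈ Q) (z : H) (hz : z ∈ Q) (dz : D.d z = z) :
    z ∈ P := by
  have nz := D.n_mem hQ.1 hz
  have e2 : ∀ y, D.t (z * (y + D.d y)) = 2 * D.t (z * y) := fun y => by
    rw [mul_add, map_add, ← D.t_d (z * D.d y), D.d_mul, D.d_d, dz, D.t_comm y, two_mul]
  have ps : ∀ y ∈ P, y + D.d y ∈ P := fun y hy => add_mem hy (hP.2.2 y hy)
  let B : Submodule R K :=
    { carrier := {k | k ∈ (algebraMap R K).range ∧
        ∀ y ∈ P, k * D.t (z * y) ∈ (algebraMap R K).range}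
      add_mem' := fun {a b} ha hb => ⟨add_mem ha.1 hb.1, fun y hy => by
        rw [add_mul]; exact add_mem (ha.2 y hy) (hb.2 y hy)⟩
      zero_mem' := ⟨zero_mem _, fun y _ => by simp⟩
      smul_mem' := fun r a ha => by
        rw [Algebra.smul_def]
        exact ⟨mul_mem ⟨r, rfl⟩ ha.1, fun y hy => by
          rw [mul_assoc]; exact mul_mem ⟨r, rfl⟩ (ha.2 y hy)⟩ }
  have sq : ∀ k ∈ B, ∀ y ∈ P, k * D.t (z * y) ^ 2 ∈ (algebraMap R K).range := by
    intro k hk y hy
    have h1 : k • z ∈ P := adj hP hm (by rw [map_smul, dz])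
      (by rw [D.n_smul]; exact mul_mem (mul_mem hk.1 hk.1) nz)
      (fun y hy => by rw [smul_mul_assoc, map_smul]; exact hk.2 y hy)
    have h2 := D.t_mem hQ.1 (mul_mem hz (h (y * k • z * D.d y)
      (mul_mem (mul_mem hy h1) (hP.2.2 y hy))
      (by rw [D.d_mul, D.d_mul, D.d_d, map_smul, dz, mul_assoc])))
    have h3 : D.t (z * (y * z * D.d y)) = D.t (z * y) ^ 2 + 2 * D.n z * D.n y -
        D.n z * D.t (y * D.c (y + D.d y)) := by
      have a1 : z * (y * z * D.d y) = z * (y * z * (y + D.d y)) - (z * y) * (z * y) := by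
        noncomm_ring
      have a2 : y * z * (y + D.d y) * z = D.t (z * (y + D.d y)) • (y * z) -
          D.n z • (y * D.c (y + D.d y)) := by
        generalize y + D.d y = s
        have := D.mul_eq z s
        generalize D.t (z * s) = τ at this ⊢
        rw [mul_assoc y, this, mul_assoc y, sub_mul, mul_assoc, D.c_mul_self]
        simp [mul_sub]
      rw [a1, map_sub, D.sq, D.t_comm, a2, e2]
      simp only [map_sub, map_smul, D.t_one, D.n_mul, smul_eq_mul, D.t_comm y z]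
      ring
    rw [mul_smul_comm, smul_mul_assoc, mul_smul_comm, map_smul, h3, smul_eq_mul] at h2
    have h4 := mul_mem hk.1 (sub_mem (mul_mem (mul_mem (natCast_mem _ 2) nz) (D.n_mem hP.1 hy))
      (mul_mem nz (D.t_mem hP.1 (mul_mem hy (D.c_mem hP.1 (ps y hy))))))
    convert sub_mem h2 h4 using 1
    push_cast
    ring
  refine adj hP hm dz nz fun y hy => IsIntegrallyClosed.algebraMap_eq_of_integral
    (isIntegral_of_smul_mem_submodule B (fun c => ?_) ?_ _ fun k hk => ⟨?_, fun w hw => ?_⟩)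
  · have : (2 : K) ∈ B := ⟨by exact_mod_cast natCast_mem (algebraMap R K).range 2, fun y hy => by
      rw [← e2]
      exact D.t_mem hQ.1 (mul_mem hz (h _ (ps y hy) (by rw [map_add, D.d_d, add_comm])))⟩
    rw [c] at this
    exact D.two this
  · exact (Submodule.fg_span_singleton (1 : K)).of_le fun k hk =>
      Submodule.one_eq_span (R := R) (A := K) ▸ Submodule.mem_one.2 hk.1
  · rw [smul_eq_mul, mul_comm]
    exact hk.2 y hy
  · obtain ⟨r, hr⟩ := mul_mem (sq k hk y hy) (sq k hk w hw)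
    refine IsIntegrallyClosed.algebraMap_eq_of_integral (IsIntegral.of_pow (n := 2) two_pos ?_)
    have : (D.t (z * y) • k * D.t (z * w)) ^ 2 = algebraMap R K r := by
      rw [hr, smul_eq_mul]
      ring
    rw [this]
    exact isIntegral_algebraMap

theorem main {O P : Subalgebra R H} (hO : D.Ord O) (hE : D.Euc W O) (hP : D.Ord P)
    (hm : ∀ Q, D.Ord Q → P ≤ Q → Q = P) : D.Euc W P := by
  obtain ⟨Q, h1, h2, h3⟩ := cover hO hP hE
  exact transfer h1 hP h2 (maxi hP hm h1 h3)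

end Pool.Agent.H.MP_d00095_nt
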